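import Pool.Agent.T2H43.WM.Vanish

/-!
# MP_d037d4_ag: the `p`-adic weight-monodromy conjecture when the characters of the strata are
controlled (multiplicity one)
-/

set_option autoImplicit false

open Module

universe u v

namespace Pool.Agent.Results.MP_d037d4_ag.ControlledCharacters

open Pool.Agent.Y143 Pool.Agent.X302.MW Pool.Agent.T2H43.WM

/-- **The `p`-adic weight-monodromy conjecture for controlled characters.** Let `X_K` be a smooth
projective variety of dimension `n` over a finite extension `K` of `ℚ_p` with residue field with `q`
elements, which has a projective strictly semistable model over the ring of integers; `X` is its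
`p`-adic theory: the crystalline cohomology of the strata `Y^(a+1)` of the special fibre, the
Hyodo-Kato cohomology of the generic fibre and the weight spectral sequence, with coefficients
extended to an algebraic closure `Ω` of `K_0`. Let `Γ` be a family of commuting operators (the
linear Frobenius and its inverse, and for example commuting automorphisms or Hecke correspondences
of the model, and their transposes), `A` the classes of the components and of the divisors of the
strata.

Let `k ≥ 0`. Suppose that every character `χ` of `Γ` is controlled in all weights `w ≥ 2` on the
strata `Y^(a+2)` with `a + 1 + w ≤ min(k, 2 n - k)`. This means that one of the following holds, where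
`χ' = q ^ w / χ` is the dual character:

* `χ` occurs at most once in the primitive part of `E_1^(a+1, w)` (or this part consists of
  coboundaries, or meets the coboundaries in zero only), and the same for `χ'`;
* the primitive part of `E_1^(a+1, w)` of character `χ` or `χ'` consists of coboundaries;
* `χ` and `χ'` do not occur in `H^w(Y^(a+1))`, or `w = 2` and the classes with these characters in
  `H^2(Y^(a+1))` are algebraic;
* `χ` and `χ'` do not occur in the part `E_2^(a+1, w)` of weight `w` of `H^(a+1+w)(X_K)`

(in the first three cases the conditions for `χ` and `χ'` can be chosen independently). Then the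
weight-monodromy conjecture holds for `H^k(X_K)`. -/
theorem result {Ω : Type u} [Field Ω] [CharZero Ω] [IsAlgClosed Ω] {Γ : Type} {n q : ℕ}
    (X : Degeneration.{u, v} Ω Γ n q) (A : DivisorClasses X.toSpecialFibre) (k : ℕ)
    (hA : ∀ (a w : ℕ) (χ : Γ → Ω), 2 ≤ w → a + 1 + w ≤ k → a + 1 + w + k ≤ 2 * n →
      ControlledAt A a w χ ∧ ControlledAt A a w (dualAt X.toSpecialFibre w χ) ∨
      VanishesAt X.toSpecialFibre ((a : ℤ) + 1) w χ ∧
        VanishesAt X.toSpecialFibre ((a : ℤ) + 1) w (dualAt X.toSpecialFibre w χ)) :
    IsMWPure q k (X.actV k X.frob) (X.N k) :=
  mw_vanish X A k hA

end Pool.Agent.Results.MP_d037d4_ag.ControlledCharacters
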