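import Pool.Agent.T2H43.WM.Gen

/-!
# MP_d037d4_ag: the third Hyodo-Kato cohomology of varieties with few differential forms, and
Calabi-Yau threefolds with `N ^ 2 ≠ 0`
-/

set_option autoImplicit false

open Module

universe u v

namespace Pool.Agent.Results.MP_d037d4_ag.FewThreeForms

open Pool.Agent.Y143 Pool.Agent.X302.MW Pool.Agent.T2H43.WM

/-- **The `p`-adic weight-monodromy conjecture for `H^3` of varieties with few `3`-forms.** Let `X_K`
be a smooth projective variety of dimension `n` over a finite extension `K` of `ℚ_p` with residue
field with `q` elements, which has a projective strictly semistable model over the ring of integers.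
`X` is its `p`-adic theory: the crystalline cohomology of the strata `Y^(a+1)` of the special fibre
(Poincaré duality, hard Lefschetz theorem, Frobenius weights), the Hyodo-Kato cohomology of the
generic fibre with its monodromy operator `N`, the weight spectral sequence of Mokrane and the hard
Lefschetz theorem, with coefficients extended to an algebraic closure `Ω` of `K_0`; the Frobenius is
the linear Frobenius `φ^f`, and `A` are the classes of the components and of the divisors of the
strata (with the Hodge index theorem).

Let `β` be the eigenvalues of the Frobenius on `H^3` with their multiplicities, `a` the Hodge slopes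
of `H^3` (so `zeroCount a` is the Hodge number `h^(0,3)`), and `val` the `p`-adic valuation with
`val q = 1`. Known facts used: `hI` (the eigenvalues on the strata are algebraic integers), `hN` (the
Newton polygon lies above the Hodge polygon), `hM` (Dieudonné-Manin: the Newton polygon of the part
of weight `w` has integral vertices). Hypotheses:

* `hr`: the characteristic polynomial of the Frobenius on `H^3` has rational coefficients;
* `hT`: the Tate conjecture for divisors on the components `Y^(1)` of the special fibre;
* `hc`: `h^(0,3) < 1 + b_0 + b_1 / 2`, where `b_w` is the number of the eigenvalues of weight `w` on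
  `H^3`; or `h^(0,3) ≤ 1` and `N ^ 2 ≠ 0` on `H^3` (for example Calabi-Yau threefolds with
  `N ^ 2 ≠ 0`). The first condition holds in particular if `H^3(X_K, O) = 0`.

Then the weight-monodromy conjecture holds for `H^k(X_K)` for all `k ≤ 3` and `k ≥ 2 n - 3` (so for
all `k` if `n = 3`), and the eigenvalues of weight two on `H^3` are products of `q` and roots of
unity. -/
theorem result {Ω : Type u} [Field Ω] [CharZero Ω] [IsAlgClosed Ω] {Γ : Type} {n q : ℕ}
    (hq : IsPrimePow q) (X : Degeneration.{u, v} Ω Γ n q)
    (A : DivisorClasses X.toSpecialFibre) (hI : HasIntegralFrobenius X.toSpecialFibre)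
    {val : Ω → ℝ} (hv : IsSlopeFunction q val) {N : ℕ} {β : Fin N → Ω} {a : Fin N → ℕ}
    (hβ : IsSpectrum (X.actV 3 X.frob) β) (hN : NewtonAboveHodge val β a)
    (hM : IntegralSlopes q val β) (hr : IsRationalSpectrum β) (hT : A.TateConj 0)
    (hc : 2 * zeroCount a < 2 + 2 * weightCount q β 0 + weightCount q β 1 ∨
      zeroCount a ≤ 1 ∧ X.N 3 ^ 2 ≠ 0) :
    (∀ k : ℕ, k ≤ 3 ∨ 2 * n ≤ k + 3 → IsMWPure q k (X.actV k X.frob) (X.N k)) ∧
      ∀ α, IsEigenvalueOn X.toSemistableModel 3 α → IsIntegral ℤ α → IsWeilNumber q 2 α →
        IsTateNumber q α :=
  ⟨fun k hk => mw_level X hI A hT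
    (fun _ hα hint hw => tate_three X hq hv hβ hr hN hM hc hα hint hw) k hk,
    fun _ hα hint hw => tate_three X hq hv hβ hr hN hM hc hα hint hw⟩

end Pool.Agent.Results.MP_d037d4_ag.FewThreeForms
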