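import Pool.Agent.T2H43.WM.Genus

/-!
# MP_d037d4_ag: the weight-monodromy conjecture for `H^3` when the transcendental parts of the
double strata have geometric genus at most one
-/

set_option autoImplicit false

open Module

universe u v

namespace Pool.Agent.Results.MP_d037d4_ag.GenusOneDoubleStrata

open Pool.Agent.Y143 Pool.Agent.X302.MW Pool.Agent.T2H43.WM

/-- **The `p`-adic weight-monodromy conjecture for `H^3` and double strata of genus at most one.** Let
`X_K` be a smooth projective variety of dimension `n` over a finite extension `K` of `ℚ_p` with
residue field with `q` elements, which has a projective strictly semistable model; `X` is its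
`p`-adic theory (crystalline cohomology of the strata `Y^(a+1)` of the special fibre, Hyodo-Kato
cohomology of the generic fibre, weight spectral sequence, hard Lefschetz theorem), with
coefficients extended to an algebraic closure `Ω` of `K_0`, with the linear Frobenius and the
`p`-adic valuation `val`, `val q = 1`.

`genusAt val m α` is the sum of the `(1 - s) m(α')` over the conjugates `α'` of `α` of slope `s < 1`. If
`m(α')` is the multiplicity of `α'` on `H^2` of a smooth projective variety `D`, the sum of these
numbers over all `P = minpoly α` is at most `h^(0,2)(D)` (the Newton polygon lies above the Hodge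
polygon). Known facts used: `hI`; `hS` (Katz-Messing: the characteristic polynomial on `H^2(Y^(2))` is
rational); `hZ`, `hB` (Dieudonné-Manin: the slopes of the `P`-primary parts of the isocrystals of
cocycles and of coboundaries in `E_1^(1, 2)` are integral). Hypotheses:

* `hr`: the characteristic polynomial of the Frobenius on `H^3` has rational coefficients;
* `hT`: the Tate conjecture for divisors on the components `Y^(1)`;
* `hG`: every irreducible factor of the characteristic polynomial on `H^2(Y^(2))` whose roots are not
  products of `q` and roots of unity has genus at most one. (For example, the components of `Y^(2)`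
  have `h^(0,2) ≤ 1`, such as K3 surfaces, abelian surfaces or surfaces with `p_g = 0` for `n = 3`,
  and the transcendental parts of their `H^2` have no common Frobenius eigenvalues.)

Then the weight-monodromy conjecture holds for `H^k(X_K)` for `k ≤ 3` and `k ≥ 2 n - 3`, so for all `k`
if `n = 3`. -/
theorem result {Ω : Type u} [Field Ω] [CharZero Ω] [IsAlgClosed Ω] {Γ : Type} {n q : ℕ}
    (hq : IsPrimePow q) (X : Degeneration.{u, v} Ω Γ n q)
    (A : DivisorClasses X.toSpecialFibre) (hI : HasIntegralFrobenius X.toSpecialFibre)
    {val : Ω → ℝ} (hv : IsSlopeFunction q val) {N : ℕ} {β : Fin N → Ω}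
    (hβ : IsSpectrum (X.actV 3 X.frob) β) (hr : IsRationalSpectrum β)
    (hS : ∀ α α' : Ω, AreConjugate α α' →
      stratumMult X.toSpecialFibre 1 2 α = stratumMult X.toSpecialFibre 1 2 α')
    (hZ : ∀ α : Ω, IsWeilNumber q 2 α → ∃ m : ℤ, genusAt val (zdim X.toSpecialFibre 1 2) α = m)
    (hB : ∀ α : Ω, IsWeilNumber q 2 α → ∃ m : ℤ, genusAt val (bdim X.toSpecialFibre 1 2) α = m)
    (hT : A.TateConj 0)
    (hG : ∀ α : Ω, IsWeilNumber q 2 α → ¬ IsTateNumber q α →
      genusAt val (stratumMult X.toSpecialFibre 1 2) α ≤ 1)
    (k : ℕ) (hk : k ≤ 3 ∨ 2 * n ≤ k + 3) :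
    IsMWPure q k (X.actV k X.frob) (X.N k) :=
  mw_genus X hq hI A hv hβ hr hS hT hG hZ hB k hk

end Pool.Agent.Results.MP_d037d4_ag.GenusOneDoubleStrata
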