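import Pool.Agent.T2H43.WM.Poly

/-!
# MP_d037d4_ag: the weight-monodromy conjecture in all degrees when the Hodge polygon is used up by
the weights at most two
-/

set_option autoImplicit false

open Module

universe u v

namespace Pool.Agent.Results.MP_d037d4_ag.WeightPolygon

open Pool.Agent.Y143 Pool.Agent.X302.MW Pool.Agent.T2H43.WM

/-- **The `p`-adic weight-monodromy conjecture for `H^k` from the weight and Hodge polygons.** Let
`X_K` be a smooth projective variety of dimension `n` over a finite extension `K` of `ℚ_p` with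
residue field with `q` elements, which has a projective strictly semistable model; `X` is its
`p`-adic theory (crystalline cohomology of the strata `Y^(a+1)` of the special fibre, Hyodo-Kato
cohomology of the generic fibre, weight spectral sequence, hard Lefschetz theorem), with
coefficients extended to an algebraic closure `Ω` of `K_0`, and the linear Frobenius.

For every `j` let `β j` be the eigenvalues of the Frobenius on `H^j` with their multiplicities and
`a j` the Hodge slopes of `H^j` (`c` occurs `h^(c, j - c)` times), and let `b_w` be the number of the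
eigenvalues of weight `w` on `H^j`. Known facts used: `hI`, `hN` (Newton above Hodge) and `hM`
(Dieudonné-Manin in each weight). Suppose that, for all `j` with `3 ≤ j ≤ min(k, 2 n - k)`,

* `hr`: the characteristic polynomial of the Frobenius on `H^j` has rational coefficients;
* `hc`: `h^(0, j) < 1 + b_0 + b_1 / 2`;
* `hc'`: if `j ≥ 4`, then `∑_(c < j / 2) (j - 2 c) h^(c, j - c) ≤ j b_0 + (j - 1) b_1 + (j - 2) b_2`
  (the reverse inequality always holds);

and (`hT`) the Tate conjecture for divisors on the strata `Y^(a+1)`, `a ≤ k - 3`. Then the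
weight-monodromy conjecture holds for `H^k(X_K)`. Examples for `k = 4`: Calabi-Yau fourfolds such
that the Frobenius has an eigenvalue of weight `0` and `h^(1,3)` eigenvalues of weight `2` on
`H^4`. -/
theorem result {Ω : Type u} [Field Ω] [CharZero Ω] [IsAlgClosed Ω] {Γ : Type} {n q : ℕ}
    (hq : IsPrimePow q) (X : Degeneration.{u, v} Ω Γ n q)
    (A : DivisorClasses X.toSpecialFibre) (hI : HasIntegralFrobenius X.toSpecialFibre)
    {val : Ω → ℝ} (hv : IsSlopeFunction q val) (k : ℕ)
    {N : ℕ → ℕ} {β : ∀ j, Fin (N j) → Ω} {a : ∀ j, Fin (N j) → ℕ}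
    (hβ : ∀ j, IsSpectrum (X.actV j X.frob) (β j)) (hN : ∀ j, NewtonAboveHodge val (β j) (a j))
    (hM : ∀ j, IntegralSlopes q val (β j))
    (hT : ∀ a : ℕ, a + 3 ≤ k → A.TateConj a)
    (hr : ∀ j, 3 ≤ j → j ≤ k → j + k ≤ 2 * n → IsRationalSpectrum (β j))
    (hc : ∀ j, 3 ≤ j → j ≤ k → j + k ≤ 2 * n →
      2 * zeroCount (a j) < 2 + 2 * weightCount q (β j) 0 + weightCount q (β j) 1)
    (hc' : ∀ j, 4 ≤ j → j ≤ k → j + k ≤ 2 * n →
      ∑ i, (j - 2 * a j i) ≤ j * weightCount q (β j) 0 + (j - 1) * weightCount q (β j) 1 +
        (j - 2) * weightCount q (β j) 2) :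
    IsMWPure q k (X.actV k X.frob) (X.N k) :=
  mw_numerical X hq hI A hv k hβ hN hM hT hr hc hc'

end Pool.Agent.Results.MP_d037d4_ag.WeightPolygon
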